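import Pool.Agent.H247.CB.Stm
import Pool.Graph.R_seed8.Y675.CO.CI
import Pool.Graph.R_seed8.Y504.CO.F2c

/-!
# Project CB (helper247), job LOC: order structure near a periodic point

Proof plan by helper247.
-/

set_option autoImplicit false

open scoped Manifold ContDiff Topology
open Filter Set Metric

universe u

namespace Pool.Agent.H484.CB.LOC

open Pool.Agent.H718R2.G Pool.Agent.TH80.OMS Pool.Agent.Y504.CO Pool.Agent.H247.CB
open Pool.Agent.Y504.CO.F2c (chart_c1 iter_cont tendsto_symm)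

/-- the derivative of the return map in a chart is injective -/
theorem inj {n : ℕ} {N : Type u} [TopologicalSpace N] [ChartedSpace (V n) N]
    [IsManifold (𝓡 n) ∞ N] {r : ℕ∞} (hr : 1 ≤ r) (F : DiffM n N r) {p : N} {m : ℕ}
    (hm : F^[m] p = p) {ψ : OpenPartialHomeomorph N (V n)}
    (hψ : ψ ∈ IsManifold.maximalAtlas (𝓡 n) ∞ N) (hp : p ∈ ψ.source) :
    Function.Injective (fderiv ℝ (fun v => ψ (F^[m] (ψ.symm v))) (ψ p)) := by
  have hinv : Function.LeftInverse (F.symm^[m]) (F^[m]) :=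
    Function.LeftInverse.iterate (fun x => F.symm_apply_apply x) m
  have hm' : F.symm^[m] p = p := by
    have h := hinv p
    rwa [hm] at h
  set f : V n → V n := fun v => ψ (F^[m] (ψ.symm v)) with hf
  set g : V n → V n := fun v => ψ (F.symm^[m] (ψ.symm v)) with hg
  have hfd : HasFDerivAt f (fderiv ℝ f (ψ p)) (ψ p) :=
    ((chart_c1 hr F m hψ hp (by rw [hm]; exact hp)).differentiableAt (by norm_num)).hasFDerivAt
  have hgd : HasFDerivAt g (fderiv ℝ g (ψ p)) (ψ p) :=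
    ((chart_c1 hr F.symm m hψ hp (by rw [hm']; exact hp)).differentiableAt
      (by norm_num)).hasFDerivAt
  have hfp : f (ψ p) = ψ p := by
    simp only [hf, ψ.left_inv hp, hm]
  have hgd' : HasFDerivAt g (fderiv ℝ g (ψ p)) (f (ψ p)) := by
    rw [hfp]
    exact hgd
  have hc : HasFDerivAt (fun v => g (f v)) ((fderiv ℝ g (ψ p)).comp (fderiv ℝ f (ψ p))) (ψ p) :=
    HasFDerivAt.comp (g := g) (f := f) (ψ p) hgd' hfd
  have hev : ∀ᶠ v in 𝓝 (ψ p), v = g (f v) := by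
    have h1 : Tendsto (fun v => F^[m] (ψ.symm v)) (𝓝 (ψ p)) (𝓝 (F^[m] p)) :=
      ((iter_cont F m).tendsto p).comp (tendsto_symm hp)
    rw [hm] at h1
    filter_upwards [ψ.open_target.mem_nhds (ψ.map_source hp),
      h1.eventually (ψ.open_source.mem_nhds hp)] with v hv1 hv2
    simp only [hf, hg]
    rw [ψ.left_inv hv2, hinv, ψ.right_inv hv1]
  have hid : HasFDerivAt (fun v : V n => v)
      ((fderiv ℝ g (ψ p)).comp (fderiv ℝ f (ψ p))) (ψ p) := hc.congr_of_eventuallyEq hev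
  have heq := hid.unique (hasFDerivAt_id (ψ p))
  intro u v huv
  have h1 := congrArg (fun T : V n →L[ℝ] V n => T u) heq
  have h2 := congrArg (fun T : V n →L[ℝ] V n => T v) heq
  simp only [ContinuousLinearMap.comp_apply, ContinuousLinearMap.id_apply] at h1 h2
  rw [← h1, ← h2, huv]

theorem main (hLA : S_LA) (hCN : S_CN) : S_LOC.{u} := by
  intro n N _ _ _ _ _ r hr F p m hm1 hm ⟨ψ, hψ, hp, hA1⟩
  set A : V n →L[ℝ] V n := fderiv ℝ (fun v => ψ (F^[m] (ψ.symm v))) (ψ p) with hAdef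
  have hinj : Function.Injective A := inj hr F hm hψ hp
  -- the common part
  have key : ∀ η : ℝ, 0 < η → ∃ (O : Set N) (U : Set (DiffM n N r)), IsOpen O ∧ p ∈ O ∧
      O ⊆ ψ.source ∧ IsOpen[strongTop n N r] U ∧ F ∈ U ∧ ∀ G ∈ U, ∀ K ⊆ O,
      (∀ x ∈ K, G^[m] x ∈ K ∧ G.symm^[m] x ∈ K) → ∀ x ∈ K, ∀ y ∈ K, ∃ δ : ℤ → V n,
        (∃ C : ℝ, ∀ i, ‖δ i‖ ≤ C) ∧ (∀ i, ‖δ (i + 1) - A (δ i)‖ ≤ η * ‖δ i‖) ∧
        δ 0 = ψ y - ψ x ∧ δ 2 = ψ (G^[2 * m] y) - ψ (G^[2 * m] x) := by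
    intro η hη
    obtain ⟨W, hW, U, hU, hFU, hGU⟩ := (Pool.Agent.Y675.CO.CI.main n N r hr F m p).2 ψ hψ ψ hψ hp
      (by rw [hm]; exact hp) η hη
    have hev : ∀ᶠ v in 𝓝 (ψ p), v ∈ ψ.target ∧ ψ.symm v ∈ W :=
      Filter.Eventually.and (ψ.open_target.mem_nhds (ψ.map_source hp))
        ((tendsto_symm hp).eventually hW)
    obtain ⟨ρ, hρ, hρ'⟩ := Metric.eventually_nhds_iff.1 hev
    have hO : IsOpen (ψ.source ∩ ψ ⁻¹' ball (ψ p) ρ) := ψ.isOpen_inter_preimage isOpen_ball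
    refine ⟨ψ.source ∩ ψ ⁻¹' ball (ψ p) ρ, U, hO, ⟨hp, mem_ball_self hρ⟩, inter_subset_left, hU,
      hFU, ?_⟩
    intro G hG K hKO hK x hx y hy
    -- the mean value inequality
    have hmv : ∀ y1 ∈ K, ∀ y2 ∈ K,
        ‖ψ (G^[m] y2) - ψ (G^[m] y1) - A (ψ y2 - ψ y1)‖ ≤ η * ‖ψ y2 - ψ y1‖ := by
      intro y1 hy1 y2 hy2
      obtain ⟨h1s, h1b⟩ := hKO hy1
      obtain ⟨h2s, h2b⟩ := hKO hy2
      have h1b' : ψ y1 ∈ ball (ψ p) ρ := h1b
      have h2b' : ψ y2 ∈ ball (ψ p) ρ := h2b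
      have hpt : ∀ v ∈ ball (ψ p) ρ,
          DifferentiableAt ℝ (fun v => ψ (G^[m] (ψ.symm v))) v ∧
          ‖fderiv ℝ (fun v => ψ (G^[m] (ψ.symm v))) v - A‖ ≤ η := by
        intro v hv
        obtain ⟨hvt, hvW⟩ := hρ' (mem_ball.1 hv)
        obtain ⟨ha, hb, hc⟩ := hGU G hG _ hvW
        rw [ψ.right_inv hvt] at hc
        have hd := (chart_c1 hr G m hψ ha hb).differentiableAt (by norm_num)
        rw [ψ.right_inv hvt] at hd
        exact ⟨hd, hc.le⟩
      have h := Convex.norm_image_sub_le_of_norm_fderiv_le' (𝕜 := ℝ)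
        (f := fun v => ψ (G^[m] (ψ.symm v))) (φ := A) (C := η) (s := ball (ψ p) ρ)
        (fun v hv => (hpt v hv).1) (fun v hv => (hpt v hv).2) (convex_ball _ _) h1b' h2b'
      simpa only [ψ.left_inv h1s, ψ.left_inv h2s] using h
    -- the orbits
    set H : Equiv.Perm N := (G.toEquiv : Equiv.Perm N) ^ m with hH
    have hHa : ∀ z, H z = G^[m] z := by
      intro z
      have h := Equiv.Perm.iterate_eq_pow (G.toEquiv : Equiv.Perm N) m
      rw [hH, ← h]
      rfl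
    have hHi : ∀ z, H⁻¹ z = G.symm^[m] z := by
      intro z
      have h := Equiv.Perm.iterate_eq_pow ((G.toEquiv : Equiv.Perm N)⁻¹) m
      rw [hH, ← inv_pow, ← h]
      rfl
    have hK' : ∀ z ∈ K, ∀ i : ℤ, (H ^ i) z ∈ K := by
      intro z hz i
      induction i using Int.induction_on with
      | zero => simpa using hz
      | succ i ih =>
        rw [add_comm, zpow_add, zpow_one, Equiv.Perm.mul_apply, hHa]
        exact (hK _ ih).1
      | pred i ih =>
        rw [sub_eq_add_neg, add_comm, zpow_add, zpow_neg_one, Equiv.Perm.mul_apply, hHi]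
        exact (hK _ ih).2
    have hsucc : ∀ (z : N) (i : ℤ), (H ^ (i + 1)) z = G^[m] ((H ^ i) z) := by
      intro z i
      rw [add_comm, zpow_add, zpow_one, Equiv.Perm.mul_apply, hHa]
    have htwo : ∀ z : N, (H ^ (2 : ℤ)) z = G^[2 * m] z := by
      intro z
      have e : (2 : ℤ) = 0 + 1 + 1 := by norm_num
      rw [e, hsucc, hsucc, zpow_zero, Equiv.Perm.one_apply, ← Function.iterate_add_apply, two_mul]
    refine ⟨fun i => ψ ((H ^ i) y) - ψ ((H ^ i) x), ⟨ρ + ρ, fun i => ?_⟩, fun i => ?_, ?_, ?_⟩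
    · have h1 : ψ ((H ^ i) y) ∈ ball (ψ p) ρ := (hKO (hK' y hy i)).2
      have h2 : ψ ((H ^ i) x) ∈ ball (ψ p) ρ := (hKO (hK' x hx i)).2
      rw [← dist_eq_norm]
      refine (dist_triangle_right _ _ (ψ p)).trans ?_
      exact add_le_add (mem_ball.1 h1).le (mem_ball.1 h2).le
    · have h := hmv _ (hK' x hx i) _ (hK' y hy i)
      simpa only [hsucc] using h
    · simp
    · simp only [htwo]
  have hinjψ : ∀ x ∈ ψ.source, ∀ y ∈ ψ.source, ψ y - ψ x = 0 → x = y := by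
    intro x hx y hy h
    exact ψ.injOn hx hy (sub_eq_zero.1 h).symm
  rcases hLA n A hinj hA1 with hNB | ⟨lam, e, ℓ, hCen⟩
  · obtain ⟨η, hη, hδ⟩ := (hCN n A).1 hNB
    obtain ⟨O, U, hO, hpO, hOs, hU, hFU, hall⟩ := key η hη
    refine ⟨O, fun _ => 0, U, hO, hpO, continuousOn_const, hU, hFU, ?_⟩
    intro G hG K hKO hK x hx y hy
    refine ⟨fun _ => ?_, fun h => absurd h (lt_irrefl _)⟩
    obtain ⟨δ, hb, hd, h0, -⟩ := hall G hG K hKO hK x hx y hy
    refine hinjψ x (hOs (hKO hx)) y (hOs (hKO hy)) ?_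
    rw [← h0]
    exact hδ δ hb hd 0
  · obtain ⟨η, hη, hδ⟩ := (hCN n A).2 lam e ℓ hCen
    obtain ⟨O, U, hO, hpO, hOs, hU, hFU, hall⟩ := key η hη
    refine ⟨O, fun x => ℓ (ψ x), U, hO, hpO,
      ℓ.continuous.comp_continuousOn (ψ.continuousOn.mono hOs), hU, hFU, ?_⟩
    intro G hG K hKO hK x hx y hy
    obtain ⟨δ, hb, hd, h0, h2⟩ := hall G hG K hKO hK x hx y hy
    have hδ' := hδ δ hb hd
    refine ⟨fun h => ?_, fun h => ?_⟩
    · refine hinjψ x (hOs (hKO hx)) y (hOs (hKO hy)) ?_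
      rw [← h0]
      refine (hδ' 0).1 ?_
      rw [h0, map_sub]
      exact sub_eq_zero.2 h.symm
    · have a0 : 0 < ℓ (δ 0) := by
        rw [h0, map_sub]
        exact sub_pos.2 h
      have b0 := (hδ' 0).2 a0.ne'
      rw [zero_add] at b0
      have a1 : ℓ (δ 1) ≠ 0 := by
        intro h1
        rw [h1, mul_zero, mul_zero] at b0
        exact lt_irrefl _ b0
      have b1 := (hδ' 1).2 a1
      rw [one_add_one_eq_two] at b1
      have c2 : 0 < ℓ (δ 2) := by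
        rcases hCen.one with hl | hl
        · rw [hl, one_mul] at b0 b1
          have a1' : 0 < ℓ (δ 1) := (mul_pos_iff_of_pos_left a0).1 b0
          exact (mul_pos_iff_of_pos_left a1').1 b1
        · rw [hl, neg_one_mul, neg_pos] at b0 b1
          have a1' : ℓ (δ 1) < 0 := by
            by_contra h3
            exact absurd b0 (not_lt.2 (mul_nonneg a0.le (not_lt.1 h3)))
          by_contra h3
          exact absurd b1 (not_lt.2 (mul_nonneg_of_nonpos_of_nonpos a1'.le (not_lt.1 h3)))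
      rw [h2, map_sub] at c2
      exact sub_pos.1 c2

end Pool.Agent.H484.CB.LOC
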